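import Mathlib
import Pool.Agent.MWE.Stmts

/-!
# Squad MWE, row NXL: the images of the letters of the chain contain no letters `x`
-/

set_option autoImplicit false

namespace Pool.Agent.MWE.H95

open Pool.Agent.Helper14_MV Pool.Agent.Helper2_MV Pool.Agent.MVD

theorem nBw_append (R1 R2 : List ℕ) (B : ℕ → List ℕ) :
    Bw (R1 ++ R2) B = Bw R1 B ++ Bw R2 B := by
  unfold Bw
  rw [List.flatMap_append]

theorem nBw_cons (r : ℕ) (R : List ℕ) (B : ℕ → List ℕ) :
    Bw (r :: R) B = B r ++ (3 * r + 2) :: Bw R B := by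
  unfold Bw
  rw [List.flatMap_cons]
  simp

theorem nBw_congr {R : List ℕ} {B B' : ℕ → List ℕ} (h : ∀ r ∈ R, B r = B' r) :
    Bw R B = Bw R B' := by
  unfold Bw
  exact List.flatMap_congr (fun r hr => by rw [h r hr])

/-- count of a letter in an image -/
theorem ncount_img (φ : ℕ → List ℕ) (L : List ℕ) (u D : ℕ) :
    L.count u * (φ u).count D ≤ (L.flatMap φ).count D := by
  induction L with
  | nil => simp
  | cons a L ih =>
    rw [List.flatMap_cons, List.count_append, List.count_cons]
    by_cases h : a = u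
    · subst h
      simp only [beq_self_eq_true, if_true]
      rw [Nat.add_mul, one_mul]
      omega
    · have h1 : (a == u) = false := by simp [h]
      rw [h1]
      simp only [Bool.false_eq_true, if_false, Nat.add_zero]
      omega

theorem ncount_xl {D : List ℕ} {v : ℕ} (hv : isx v) (h2 : 2 ≤ D.count v) :
    2 ≤ (xl D).count (v / 3) := by
  have h1 : (List.replicate 2 v).Sublist D := List.replicate_sublist_iff.2 h2
  have h3 := (h1.filter (fun a => decide (a % 3 = 0 ∧ a < 12))).map (fun a => a / 3)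
  have h4 : ((List.replicate 2 v).filter (fun a => decide (a % 3 = 0 ∧ a < 12))).map
      (fun a => a / 3) = List.replicate 2 (v / 3) := by
    have hv' : v % 3 = 0 ∧ v < 12 := hv
    simp [hv', List.replicate]
  rw [h4] at h3
  exact List.replicate_sublist_iff.1 h3

theorem nmem_xl {D : List ℕ} {v : ℕ} (hv : isx v) (h : v ∈ D) : v / 3 ∈ xl D := by
  unfold xl
  refine List.mem_map.2 ⟨v, List.mem_filter.2 ⟨h, ?_⟩, rfl⟩
  have hv' : v % 3 = 0 ∧ v < 12 := hv
  simpa using hv'

theorem nmem_L4 {c : List ℕ} {u : ℕ} (h : u ∈ L4 c) :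
    (∃ i < 4, u = 3 * i) ∨ ∃ k < 3, ∃ w ∈ c, u = cl k w := by
  unfold L4 cp at h
  simp only [List.mem_cons, List.mem_append, List.mem_map, List.not_mem_nil, or_false] at h
  rcases h with h | ⟨w, hw, h⟩ | h | ⟨w, hw, h⟩ | h | ⟨w, hw, h⟩ | h
  · exact Or.inl ⟨0, by omega, by omega⟩
  · exact Or.inr ⟨0, by omega, w, hw, h.symm⟩
  · exact Or.inl ⟨1, by omega, by omega⟩
  · exact Or.inr ⟨1, by omega, w, hw, h.symm⟩
  · exact Or.inl ⟨2, by omega, by omega⟩
  · exact Or.inr ⟨2, by omega, w, hw, h.symm⟩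
  · exact Or.inl ⟨3, by omega, by omega⟩

theorem ncp_sub {k : ℕ} (hk : k < 3) (c : List ℕ) : (cp k c).Sublist (L4 c) := by
  unfold L4
  have h : k = 0 ∨ k = 1 ∨ k = 2 := by omega
  rcases h with rfl | rfl | rfl
  · exact (List.sublist_append_left _ _).cons _
  · exact (((List.sublist_append_left _ _).cons _).trans
      (List.sublist_append_right _ _)).cons _
  · exact (((((List.sublist_append_left _ _).cons _).trans
      (List.sublist_append_right _ _)).cons _).trans (List.sublist_append_right _ _)).cons _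

theorem nsf_L4 (c : List ℕ) : SFr (L4 c) := by
  intro u hu
  rcases nmem_L4 hu with ⟨i, hi, rfl⟩ | ⟨k, hk, w, hw, rfl⟩
  · omega
  · unfold cl
    split_ifs <;> omega

/-- local letters of a copy occur twice -/
theorem nloc {c : List ℕ} {k w : ℕ} (hk : k < 3) (h : 2 ≤ c.count w) (φ : ℕ → List ℕ) {v : ℕ}
    (hv : v ∈ φ (cl k w)) : 2 ≤ ((L4 c).flatMap φ).count v := by
  have h1 : c.count w ≤ (cp k c).count (cl k w) := by
    unfold cp
    exact List.count_le_count_map
  have h2 : (cp k c).count (cl k w) ≤ (L4 c).count (cl k w) := (ncp_sub hk c).count_le _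
  have h3 := ncount_img φ (L4 c) (cl k w) v
  have h4 : 1 ≤ (φ (cl k w)).count v := List.one_le_count_iff.2 hv
  nlinarith

theorem nxl (hFCE : FceStmt) (_hFPR : FprStmt) : NxlStmt := by
  intro m R c s t M Q φ B e hcan hR hs ht hW hF hsf hpos hx0 hx2 k hk u hu v hv hxv
  obtain ⟨R1, R2, A', C', hR12, hB1, U, V, hUV, hMU⟩ := hpos
  obtain ⟨a, A, h, C, ha, hL⟩ := hx2
  have hnd : R.Nodup := hR.nodup_iff.2 List.nodup_range
  have hmem : ∀ r, r ∈ R ↔ r < m + 2 := fun r => by rw [hR.mem_iff, List.mem_range]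
  obtain ⟨w, hw, rfl⟩ : ∃ w ∈ c, cl k w = u := by simpa [cp] using hu
  obtain ⟨Bp, hBp⟩ : ∃ Bp : ℕ → List ℕ, Bp = fun r =>
    if r = 0 then s.map (fun i => 3 * i) else if r = 1 then L4 c else Z3 r := ⟨_, rfl⟩
  have hFq : Fq R s c = Bw R Bp := by rw [hBp]; rfl
  have hp0 : Bp 0 = s.map (fun i => 3 * i) := by rw [hBp]; rfl
  have hp1 : Bp 1 = L4 c := by rw [hBp]; rfl
  have hp2 : ∀ l, Bp (l + 2) = Z3 (l + 2) := by
    intro l
    rw [hBp]
    show (if l + 2 = 0 then _ else if l + 2 = 1 then _ else _) = _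
    rw [if_neg (by omega), if_neg (by omega)]
  have hZ : ∀ l z, z ∈ Z3 (l + 2) → z % 3 = 1 ∧ z ≠ 0 := by
    intro l z hz
    unfold Z3 at hz
    simp only [List.mem_cons, List.not_mem_nil, or_false] at hz
    omega
  have hpsf : ∀ r ∈ R, SFr (Bp r) := by
    intro r _ z hz
    rcases Nat.lt_or_ge r 2 with hr | hr
    · have hr' : r = 0 ∨ r = 1 := by omega
      rcases hr' with rfl | rfl
      · rw [hp0] at hz
        obtain ⟨i, _, rfl⟩ := List.mem_map.1 hz
        omega
      · rw [hp1] at hz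
        exact nsf_L4 c z hz
    · obtain ⟨l, rfl⟩ : ∃ l, r = l + 2 := ⟨r - 2, by omega⟩
      rw [hp2] at hz
      have := (hZ l z hz).1
      omega
  have hclen : 1 ≤ c.length := List.length_pos_of_mem hw
  have hL4len : (L4 c).length = 4 + 3 * c.length := by
    unfold L4 cp
    simp only [List.length_cons, List.length_append, List.length_map, List.length_nil]
    omega
  -- the position of the main block in the pattern
  obtain ⟨P1, P2, hP, hU, hV⟩ : ∃ P1 P2 : List ℕ, R = P1 ++ 1 :: P2 ∧ U = Bw P1 Bp ∧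
      V = 5 :: Bw P2 Bp := by
    have h1 := hFCE R Bp [] U (L4 c) V hpsf (nsf_L4 c) (by unfold L4; simp)
      (by rw [List.append_nil, ← hFq]; exact hUV)
    rcases h1 with ⟨P1, r, P2, a1, c1, h2, h3, h4, h5⟩ | ⟨a1, c1, h2, _⟩
    · have hlen := congrArg List.length h3
      rw [List.length_append, List.length_append, hL4len] at hlen
      rcases Nat.lt_or_ge r 2 with hr | hr
      · have hr' : r = 0 ∨ r = 1 := by omega
        rcases hr' with rfl | rfl
        · rw [hp0, List.length_map, hs.length_eq] at hlen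
          simp only [List.length_cons, List.length_nil] at hlen
          omega
        · rw [hp1, hL4len] at hlen
          have ha1 : a1 = [] := List.eq_nil_of_length_eq_zero (by omega)
          have hc1 : c1 = [] := List.eq_nil_of_length_eq_zero (by omega)
          subst ha1 hc1
          refine ⟨P1, P2, h2, by rw [h4, List.append_nil], ?_⟩
          rw [h5, List.append_nil, List.nil_append]
      · obtain ⟨l, rfl⟩ : ∃ l, r = l + 2 := ⟨r - 2, by omega⟩
        have h0 : 0 ∈ Bp (l + 2) := by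
          rw [h3]
          unfold L4
          simp
        rw [hp2] at h0
        exact absurd rfl (hZ l 0 h0).2
    · have := congrArg List.length h2
      rw [List.length_append, List.length_append, hL4len] at this
      simp only [List.length_nil] at this
      omega
  -- the rest of the word
  have hVQ : V.flatMap φ ++ Q = C' ++ 5 :: (Bw R2 B ++ e) := by
    have h1 : (Bw R1 B ++ A') ++ ((L4 c).flatMap φ ++ (V.flatMap φ ++ Q)) =
        (Bw R1 B ++ A') ++ ((L4 c).flatMap φ ++ (C' ++ 5 :: (Bw R2 B ++ e))) := by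
      rw [← hMU]
      calc (M ++ U.flatMap φ) ++ ((L4 c).flatMap φ ++ (V.flatMap φ ++ Q))
          = M ++ ((U ++ (L4 c ++ V)).flatMap φ ++ Q) := by
            rw [List.flatMap_append, List.flatMap_append]
            simp only [List.append_assoc]
        _ = Bw R B ++ e := by rw [← hUV]; exact hW
        _ = (Bw R1 B ++ A') ++ ((L4 c).flatMap φ ++ (C' ++ 5 :: (Bw R2 B ++ e))) := by
            rw [hR12, nBw_append, nBw_cons, hB1]
            simp only [List.append_assoc, List.cons_append]
        _ = (M ++ U.flatMap φ) ++ ((L4 c).flatMap φ ++ (C' ++ 5 :: (Bw R2 B ++ e))) := by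
            rw [hMU]
    exact List.append_cancel_left (List.append_cancel_left h1)
  obtain ⟨B', hB'⟩ : ∃ B' : ℕ → List ℕ, B' = fun r => if r = 1 then A' ++ C' else B r := ⟨_, rfl⟩
  have hB'1 : B' 1 = A' ++ C' := by rw [hB']; rfl
  have hB'n : ∀ r, r ≠ 1 → B' r = B r := by
    intro r hr
    rw [hB']
    show (if r = 1 then _ else _) = _
    rw [if_neg hr]
  have hnd' := hnd
  rw [hR12, List.nodup_append, List.nodup_cons] at hnd'
  have h1R1 : 1 ∉ R1 := fun h => hnd'.2.2 1 h 1 (by simp) rfl
  have h1R2 : 1 ∉ R2 := hnd'.2.1.1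
  have hW' : Bw R B' ++ e = (M ++ U.flatMap φ) ++ (V.flatMap φ ++ Q) := by
    rw [hVQ, hMU]
    have e1 : Bw R1 B' = Bw R1 B := nBw_congr (fun r hr => hB'n r (fun h => h1R1 (h ▸ hr)))
    have e2 : Bw R2 B' = Bw R2 B := nBw_congr (fun r hr => hB'n r (fun h => h1R2 (h ▸ hr)))
    rw [hR12, nBw_append, nBw_cons, e1, e2, hB'1]
    simp only [List.append_assoc, List.cons_append]
  have hsf' : ∀ r ∈ R, SFr (B' r) := by
    intro r _
    by_cases hr : r = 1
    · subst hr
      rw [hB'1]
      intro z hz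
      refine hF.sf 1 z ?_
      rw [hB1]
      rcases List.mem_append.1 hz with hz | hz
      · exact List.mem_append_left _ hz
      · exact List.mem_append_right _ (List.mem_append_right _ hz)
    · rw [hB'n r hr]
      exact hF.sf r
  -- the factor
  have hfac : ∀ l < m, ∃ X Y : List ℕ,
      Bw R B' ++ e = X ++ ((Z3 (l + 2)).flatMap φ ++ Y) := by
    intro l hl
    have h1 : l + 2 ∈ P1 ++ 1 :: P2 := by rw [← hP, hmem]; omega
    rcases List.mem_append.1 h1 with h1 | h1
    · obtain ⟨S1, S2, h2⟩ := List.append_of_mem h1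
      refine ⟨M ++ (Bw S1 Bp).flatMap φ,
        ((3 * (l + 2) + 2) :: Bw S2 Bp).flatMap φ ++ (V.flatMap φ ++ Q), ?_⟩
      rw [hW', hU, h2, nBw_append, nBw_cons, hp2, List.flatMap_append, List.flatMap_append]
      simp only [List.append_assoc]
    · have h1' : l + 2 ∈ P2 := by
        rcases List.mem_cons.1 h1 with h | h
        · omega
        · exact h
      obtain ⟨S1, S2, h2⟩ := List.append_of_mem h1'
      refine ⟨(M ++ U.flatMap φ) ++ (5 :: Bw S1 Bp).flatMap φ,
        ((3 * (l + 2) + 2) :: Bw S2 Bp).flatMap φ ++ Q, ?_⟩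
      have e3 : V = (5 :: Bw S1 Bp) ++ (Z3 (l + 2) ++ (3 * (l + 2) + 2) :: Bw S2 Bp) := by
        rw [hV, h2, nBw_append, nBw_cons, hp2]
        simp only [List.cons_append]
      rw [hW', e3, List.flatMap_append, List.flatMap_append]
      simp only [List.append_assoc]
  have hZsf : ∀ l < m, SFr ((Z3 (l + 2)).flatMap φ) := by
    intro l hl z hz
    obtain ⟨y, hy, hzy⟩ := List.mem_flatMap.1 hz
    refine hsf y ?_ ?_ z hzy
    · rw [hFq]
      unfold Bw
      refine List.mem_flatMap.2 ⟨l + 2, (hmem _).2 (by omega), ?_⟩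
      rw [hp2]
      exact List.mem_append_left _ hy
    · have := (hZ l y hy).1
      omega
  -- the letters `D_d`
  have hB1' : B 1 = (A' ++ A) ++ 3 * a :: (h ++ 3 * (a + 1) :: (C ++ C')) := by
    rw [hB1, hL]
    simp only [List.append_assoc, List.cons_append]
  have hDL : ∀ d < m, 3 * (3 * d + a) + 1 ∈ (L4 c).flatMap φ := by
    intro d hd
    have h1 := hF.fu (A' ++ A) h (C ++ C') a hB1' ha d hd
    rw [hL]
    exact List.mem_append_right _ (List.mem_cons_of_mem _ (List.mem_append_left _ h1))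
  have hc1 : ∀ z, (B 1).count z = A'.count z + (((L4 c).flatMap φ).count z + C'.count z) := by
    intro z
    rw [hB1, List.count_append, List.count_append]
  have h1R : 1 ∈ R := (hmem 1).2 (by omega)
  have h0R : 0 ∈ R := (hmem 0).2 (by omega)
  have hD1 : ∀ d < m, (B 1).count (3 * (3 * d + a) + 1) = 1 := by
    intro d hd
    have h1 := hF.li (3 * d + a) (by omega) 1 h1R
    rw [if_pos (Or.inl rfl)] at h1
    exact h1
  have key : ∀ d < m, ∀ l < m, 3 * (3 * d + a) + 1 ∈ (Z3 (l + 2)).flatMap φ →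
      ∀ z ∈ (Z3 (l + 2)).flatMap φ, z ∈ B (d + 2) := by
    intro d hd l hl hDF z hz
    obtain ⟨X, Y, hXY⟩ := hfac l hl
    rcases hFCE R B' e X _ Y hsf' (hZsf l hl) (List.ne_nil_of_mem hDF) hXY with
      ⟨S1, r, S2, a1, c1, h2, h3, -, -⟩ | ⟨a1, c1, h2, -⟩
    · have hrR : r ∈ R := by rw [h2]; simp
      have hin : ∀ y ∈ (Z3 (l + 2)).flatMap φ, y ∈ B' r := by
        intro y hy
        rw [h3]
        exact List.mem_append_right _ (List.mem_append_left _ hy)
      by_cases hr : r = 1
      · exfalso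
        subst hr
        have h4 := hin _ hDF
        rw [hB'1] at h4
        have h5 : 1 ≤ (A' ++ C').count (3 * (3 * d + a) + 1) := List.one_le_count_iff.2 h4
        rw [List.count_append] at h5
        have h6 := hc1 (3 * (3 * d + a) + 1)
        rw [hD1 d hd] at h6
        have h7 : 1 ≤ ((L4 c).flatMap φ).count (3 * (3 * d + a) + 1) :=
          List.one_le_count_iff.2 (hDL d hd)
        omega
      · have h4 := hin _ hDF
        rw [hB'n r hr] at h4
        have h5 : 1 ≤ (B r).count (3 * (3 * d + a) + 1) := List.one_le_count_iff.2 h4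
        rw [hF.li (3 * d + a) (by omega) r hrR] at h5
        have h6 : r = d + 2 := by
          by_contra h7
          rw [if_neg (by omega)] at h5
          omega
        have h7 := hin z hz
        rw [hB'n r hr, h6] at h7
        exact h7
    · exfalso
      refine hF.le (3 * d + a) (by omega) ?_
      rw [h2]
      exact List.mem_append_right _ (List.mem_append_left _ hDF)
  have hlight : ∀ l k', k' < 3 → cl k' (3 * l + 1) ∈ Z3 (l + 2) := by
    intro l k' hk'
    unfold cl Z3
    rw [if_pos (by omega)]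
    simp only [List.mem_cons, List.not_mem_nil, or_false]
    have h1 : (3 * l + 1) / 3 = l := by omega
    rw [h1]
    omega
  have hex : ∀ d < m, ∃ l < m, 3 * (3 * d + a) + 1 ∈ (Z3 (l + 2)).flatMap φ := by
    intro d hd
    obtain ⟨u, hu, hDu⟩ := List.mem_flatMap.1 (hDL d hd)
    rcases nmem_L4 hu with ⟨i, hi, rfl⟩ | ⟨k', hk', w', hw', rfl⟩
    · exfalso
      have h1 := hx0 i hi _ hDu
      have h2 : 1 ≤ (B 0).count (3 * (3 * d + a) + 1) := List.one_le_count_iff.2 h1
      rw [hF.li (3 * d + a) (by omega) 0 h0R, if_neg (by omega)] at h2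
      omega
    · rcases hcan.lo w' hw' with ⟨l, hl, rfl⟩ | ⟨_, _, h2⟩
      · exact ⟨l, hl, List.mem_flatMap.2 ⟨_, hlight l k' hk', hDu⟩⟩
      · exfalso
        have h3 := nloc hk' h2 φ hDu
        have h4 := hc1 (3 * (3 * d + a) + 1)
        rw [hD1 d hd] at h4
        omega
  -- pigeonhole
  have hall : ∀ l < m, ∃ d < m, 3 * (3 * d + a) + 1 ∈ (Z3 (l + 2)).flatMap φ := by
    choose f hf1 hf2 using hex
    let g : Fin m → Fin m := fun d => ⟨f d.1 d.2, hf1 d.1 d.2⟩
    have hg : Function.Injective g := by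
      intro d d' hdd
      have h1 : f d.1 d.2 = f d'.1 d'.2 := congrArg Fin.val hdd
      have h2 := hf2 d.1 d.2
      have h3 := hf2 d'.1 d'.2
      rw [← h1] at h3
      have h4 := key d.1 d.2 _ (hf1 d.1 d.2) h2 _ h3
      have h5 : 1 ≤ (B (d.1 + 2)).count (3 * (3 * d'.1 + a) + 1) := List.one_le_count_iff.2 h4
      have hd1 := d.2
      have hd2 := d'.2
      rw [hF.li (3 * d'.1 + a) (by omega) (d.1 + 2) ((hmem _).2 (by omega))] at h5
      by_contra h6
      have h7 : d.1 ≠ d'.1 := fun h => h6 (Fin.ext h)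
      rw [if_neg (by omega)] at h5
      omega
    have hg' : Function.Surjective g := Finite.injective_iff_surjective.1 hg
    intro l hl
    obtain ⟨d, hd⟩ := hg' ⟨l, hl⟩
    have h1 : f d.1 d.2 = l := congrArg Fin.val hd
    have h2 := hf2 d.1 d.2
    rw [h1] at h2
    exact ⟨d.1, d.2, h2⟩
  -- the end
  rcases hcan.lo w hw with ⟨l, hl, rfl⟩ | ⟨_, _, h2⟩
  · obtain ⟨d, hd, hDd⟩ := hall l hl
    have h1 : v ∈ (Z3 (l + 2)).flatMap φ := List.mem_flatMap.2 ⟨_, hlight l k hk, hv⟩
    have h2 := key d hd l hl hDd v h1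
    have h3 := nmem_xl hxv h2
    rw [hF.xo (d + 2) ((hmem _).2 (by omega)) (by omega) (by omega)] at h3
    simp at h3
  · have h3 := nloc hk h2 φ hv
    have h4 := hc1 v
    have h5 : 2 ≤ (B 1).count v := by omega
    have h6 := ncount_xl hxv h5
    rw [hF.x1] at h6
    have h7 : ([0, 1, 2, 3] : List ℕ).count (v / 3) ≤ 1 :=
      List.nodup_iff_count_le_one.1 (by decide) _
    omega

end Pool.Agent.MWE.H95
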